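import Mathlib

set_option autoImplicit false

namespace Pool.Agent.Results.MP_6d0d7d_lc.Converse

open Set Filter Topology Equiv

universe v

/-- the topology of pointwise convergence on `Sym(X)`, with `X` discrete -/
instance (X : Type) : TopologicalSpace (Perm X) :=
  TopologicalSpace.induced (fun g => (g : X → X)) (@Pi.topologicalSpace X (fun _ => X) fun _ => ⊥)

/-- every continuous action on a nonempty compact Hausdorff space has a fixed point -/
def ExtremelyAmenable (G : Type) [Group G] [TopologicalSpace G] : Prop :=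
  ∀ (Z : Type v) [TopologicalSpace Z] [CompactSpace Z] [T2Space Z] [Nonempty Z] [MulAction G Z]
    [ContinuousSMul G Z], ∃ z : Z, ∀ g : G, g • z = z

/-- finitely many orbits on `n`-tuples for every `n ≥ 1` -/
def Oligo {Y : Type} (H : Subgroup (Perm Y)) : Prop :=
  ∀ n, 1 ≤ n → ∃ R : Set (Fin n → Y), R.Finite ∧ ∀ t : Fin n → Y, ∃ β ∈ H, β ∘ t ∈ R

/-- canonical functions -/
def Canonical {X Y : Type} (G : Subgroup (Perm X)) (H : Subgroup (Perm Y)) (f : X → Y) : Prop :=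
  ∀ n, 1 ≤ n → ∀ a : Fin n → X, ∀ α ∈ G, ∃ β ∈ H, f ∘ α ∘ a = β ∘ f ∘ a

/-- the canonisation property, required here only for countable `Y` -/
def Canonisation {X : Type} (G : Subgroup (Perm X)) : Prop :=
  ∀ (Y : Type) [Countable Y] (H : Subgroup (Perm Y)), Oligo H → ∀ f : X → Y,
    ∃ g ∈ @closure (X → Y) (@Pi.topologicalSpace X (fun _ => Y) fun _ => ⊥)
      {u | ∃ β ∈ H, ∃ α ∈ G, u = β ∘ f ∘ α}, Canonical G H g

theorem perm_of {Ω D : Type} [Countable Ω] [Infinite Ω] [Finite D] (u v : Ω → D)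
    (h : ∀ d, (∃ᶠ x in cofinite, u x = d) ↔ ∃ᶠ x in cofinite, v x = d) :
    ∃ π : Perm Ω, ∀ᶠ x in cofinite, v (π x) = u x := by
  classical
  obtain ⟨d0, h0⟩ : ∃ d, ∃ᶠ x in cofinite, u x = d := by
    by_contra hn
    push Not at hn
    obtain ⟨x, hx⟩ := (eventually_all.2 hn).exists
    exact hx _ rfl
  have key : ∀ w : Ω → D, (∀ d, (∃ᶠ x in cofinite, u x = d) ↔ ∃ᶠ x in cofinite, w x = d) →
      ∃ w' : Ω → D, (∀ᶠ x in cofinite, w' x = w x) ∧ ∀ d, ((∃ᶠ x in cofinite, u x = d) →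
        Infinite {x // w' x = d}) ∧ ((¬ ∃ᶠ x in cofinite, u x = d) → IsEmpty {x // w' x = d}) := by
    intro w hw
    have e : ∀ᶠ x in cofinite, ∃ᶠ y in cofinite, u y = w x := by
      have : ∀ d, ∀ᶠ x in cofinite, w x = d → ∃ᶠ y in cofinite, u y = d := by
        intro d
        by_cases hd : ∃ᶠ y in cofinite, u y = d
        · exact Eventually.of_forall fun _ _ => hd
        · exact (not_frequently.1 fun h => hd ((hw d).2 h)).mono fun x hx h => absurd h hx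
      exact (eventually_all.2 this).mono fun x hx => hx _ rfl
    refine ⟨fun x => if ∃ᶠ y in cofinite, u y = w x then w x else d0,
      e.mono fun x hx => if_pos hx, fun d => ⟨fun hd => ?_, fun hd => ⟨fun x => hd ?_⟩⟩⟩
    · refine infinite_coe_iff.2 ((frequently_cofinite_iff_infinite.1 ((hw d).1 hd)).mono ?_)
      rintro x rfl
      exact if_pos hd
    · rw [← x.2]
      beta_reduce
      split_ifs with h1
      · exact h1
      · exact h0
  obtain ⟨u', u1, u2⟩ := key u fun _ => Iff.rfl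
  obtain ⟨v', v1, v2⟩ := key v h
  have : ∀ d, Nonempty ({x // u' x = d} ≃ {x // v' x = d}) := by
    intro d
    by_cases hd : ∃ᶠ x in cofinite, u x = d
    · have := (u2 d).1 hd
      have := (v2 d).1 hd
      exact nonempty_equiv_of_countable
    · have := (u2 d).2 hd
      have := (v2 d).2 hd
      exact ⟨Equiv.equivOfIsEmpty _ _⟩
  let π := Equiv.ofFiberEquiv fun d => (this d).some
  refine ⟨π, ?_⟩
  filter_upwards [u1, π.injective.tendsto_cofinite.eventually v1] with x h1 h2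
  rw [← h1, ← h2]
  exact Equiv.ofFiberEquiv_map _ x

theorem shrink {Y : Type} {H : Subgroup (Perm Y)} (hH : Oligo H) {A : Set Y} (hA : A.Countable) :
    ∃ B : Set Y, A ⊆ B ∧ B.Countable ∧ ∀ n, 1 ≤ n → ∃ R : Set (Fin n → Y), R.Finite ∧
      ∀ t : Fin n → Y, (∀ i, t i ∈ B) → ∃ β ∈ H, (∀ y, β y ∈ B ↔ y ∈ B) ∧ β ∘ t ∈ R := by
  choose R r1 γ r2 r3 using fun n => hH (n + 1) (by omega)
  let Γ : Set Y → Set (Perm Y) := fun C =>
    ⋃ n, (fun t : Fin (n + 1) → C => γ n fun i => (t i).1) '' univ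
  let F : Set Y → Set Y := fun C => C ∪ ⋃ β ∈ Γ C, (β '' C ∪ β.symm '' C)
  have hF : ∀ C, C.Countable → (F C).Countable := by
    intro C hC
    have := hC.to_subtype
    exact hC.union ((countable_iUnion fun n => countable_univ.image _).biUnion fun β _ =>
      (hC.image _).union (hC.image _))
  let C : ℕ → Set Y := fun k => F^[k] A
  have hC : ∀ k, C (k + 1) = F (C k) := fun k => Function.iterate_succ_apply' F k A
  have hm : Monotone C := monotone_nat_of_le_succ fun k => hC k ▸ subset_union_left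
  have hc : ∀ k, (C k).Countable := by
    intro k
    induction k with
    | zero => exact hA
    | succ k ih => exact hC k ▸ hF _ ih
  refine ⟨⋃ k, C k, subset_iUnion C 0, countable_iUnion hc, fun n hn => ?_⟩
  obtain ⟨n, rfl⟩ : ∃ m, n = m + 1 := ⟨n - 1, by omega⟩
  refine ⟨R n, r1 n, fun t ht => ⟨γ n t, r2 n t, ?_, r3 n t⟩⟩
  choose k hk using fun i => mem_iUnion.1 (ht i)
  obtain ⟨m, hm'⟩ := (finite_range k).bddAbove
  have key : ∀ y ∈ ⋃ k, C k, γ n t y ∈ ⋃ k, C k ∧ (γ n t).symm y ∈ ⋃ k, C k := by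
    intro y hy
    obtain ⟨j, hj⟩ := mem_iUnion.1 hy
    have h1 : γ n t ∈ Γ (C (max m j)) := mem_iUnion.2 ⟨n, fun i =>
      ⟨t i, hm ((hm' ⟨i, rfl⟩).trans (le_max_left _ _)) (hk i)⟩, mem_univ _, rfl⟩
    have h2 := hm (le_max_right m j) hj
    refine ⟨mem_iUnion.2 ⟨max m j + 1, ?_⟩, mem_iUnion.2 ⟨max m j + 1, ?_⟩⟩
    · exact hC _ ▸ Or.inr (mem_biUnion h1 (Or.inl ⟨y, h2, rfl⟩))
    · exact hC _ ▸ Or.inr (mem_biUnion h1 (Or.inr ⟨y, h2, rfl⟩))
  exact fun y => ⟨fun h => (γ n t).symm_apply_apply y ▸ (key _ h).2, fun h => (key y h).1⟩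

theorem canon {X : Type} [Countable X] {G : Subgroup (Perm X)} (hG : Canonisation G) {Y : Type}
    {H : Subgroup (Perm Y)} (hH : Oligo H) (f : X → Y) {n : ℕ} (hn : 1 ≤ n) (a : Fin n → X)
    {F : Set (Perm X)} (hF : F.Finite) (hFG : ∀ γ ∈ F, γ ∈ G) :
    ∃ α ∈ G, ∀ γ ∈ F, ∃ β ∈ H, f ∘ α ∘ γ ∘ a = β ∘ f ∘ α ∘ a := by
  obtain ⟨B, b1, b2, b3⟩ := shrink hH (countable_range f)
  have := b2.to_subtype
  let H' : Subgroup (Perm B) :=
    { carrier := {δ | ∃ β ∈ H, ∀ y : B, (δ y).1 = β y}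
      one_mem' := ⟨1, H.one_mem, fun _ => rfl⟩
      mul_mem' := by
        rintro δ ε ⟨β, h1, h2⟩ ⟨γ, h3, h4⟩
        exact ⟨β * γ, H.mul_mem h1 h3, fun y => (h2 _).trans (congrArg β (h4 y))⟩
      inv_mem' := by
        rintro δ ⟨β, h1, h2⟩
        refine ⟨β⁻¹, H.inv_mem h1, fun y => β.injective ?_⟩
        rw [← h2]
        simp }
  obtain ⟨g, g1, g2⟩ := hG B H' (by
    intro m hm
    obtain ⟨R, r1, r2⟩ := b3 m hm
    refine ⟨(fun t : Fin m → B => Subtype.val ∘ t) ⁻¹' R,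
      r1.preimage (Subtype.val_injective.comp_left.injOn), fun t => ?_⟩
    obtain ⟨β, h1, h2, h3⟩ := r2 (Subtype.val ∘ t) fun i => (t i).2
    exact ⟨β.subtypePerm h2, ⟨β, h1, fun _ => rfl⟩, h3⟩) fun x => ⟨f x, b1 ⟨x, rfl⟩⟩
  let _ : TopologicalSpace B := ⊥
  have : DiscreteTopology B := ⟨rfl⟩
  obtain ⟨_, h1, δ, ⟨β, h2, h3⟩, α, h4, rfl⟩ := mem_closure_iff.1 g1
    (⋂ γ ∈ insert 1 F, ⋂ i, {u : X → B | u (γ (a i)) = g (γ (a i))})
    ((hF.insert 1).isOpen_biInter fun γ _ => isOpen_iInter_of_finite fun i =>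
      (isOpen_discrete {g (γ (a i))}).preimage (continuous_apply (A := fun _ : X => B) (γ (a i))))
    (mem_iInter₂.2 fun _ _ => mem_iInter.2 fun _ => rfl)
  have e : ∀ γ ∈ insert 1 F, ∀ i, β (f (α (γ (a i)))) = g (γ (a i)) := fun γ hγ i =>
    (h3 _).symm.trans (congrArg Subtype.val (mem_iInter.1 (mem_iInter₂.1 h1 γ hγ) i))
  refine ⟨α, h4, fun γ hγ => ?_⟩
  obtain ⟨ε, ⟨β', k1, k2⟩, k3⟩ := g2 n hn a γ (hFG γ hγ)
  refine ⟨β⁻¹ * β' * β, H.mul_mem (H.mul_mem (H.inv_mem h2) k1) h2,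
    funext fun i => β.injective ?_⟩
  have := e 1 (Or.inl rfl) i
  refine Eq.trans ?_ (β.apply_symm_apply _).symm
  exact (e γ (Or.inr hγ) i).trans ((congrArg Subtype.val (congrFun k3 i)).trans
    ((k2 _).trans (congrArg β' this.symm)))

theorem ramsey {X : Type} [Countable X] {G : Subgroup (Perm X)} (hG : Canonisation G) {n : ℕ}
    (a : Fin n → X) {K : Type} [Finite K] (χ : (Fin n → X) → K) {F : Set (Perm X)}
    (hF : F.Finite) (hFG : ∀ γ ∈ F, γ ∈ G) : ∃ α ∈ G, ∀ γ ∈ F, χ (α ∘ γ ∘ a) = χ (α ∘ a) := by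
  rcases Nat.eq_zero_or_pos n with rfl | hn
  · exact ⟨1, G.one_mem, fun _ _ => congrArg χ (Subsingleton.elim _ _)⟩
  let Ω := (Fin n → X) × ℕ
  have : Nonempty (Fin n → X) := ⟨a⟩
  let D := (Fin n → Prop) × K
  let Y := Germ (cofinite : Filter Ω) D
  let H : Subgroup (Perm Y) :=
    { carrier := {β | ∃ π : Perm Ω, ∀ u : Ω → D, β (u : Y) = (↑(u ∘ π) : Y)}
      one_mem' := ⟨1, fun _ => rfl⟩
      mul_mem' := by
        rintro β γ ⟨π, h1⟩ ⟨ρ, h2⟩
        exact ⟨ρ * π, fun u => (congrArg β (h2 u)).trans (h1 _)⟩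
      inv_mem' := by
        rintro β ⟨π, h⟩
        refine ⟨π⁻¹, fun u => β.injective ?_⟩
        rw [h]
        refine (β.apply_symm_apply _).trans (congrArg Germ.ofFun ?_)
        funext x
        simp }
  have hrep : ∀ {m : ℕ} (t : Fin m → Y), ∃ u : Fin m → Ω → D, ∀ i, t i = (u i : Y) := fun t => by
    choose u hu using fun i => Quotient.exists_rep (t i)
    exact ⟨u, fun i => (hu i).symm⟩
  have hH : Oligo H := by
    intro m _
    choose u hu using @hrep m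
    let T : (Fin m → Y) → Set (Fin m → D) := fun t =>
      {d | ∃ᶠ x in cofinite, (fun i => u t i x) = d}
    refine ⟨range fun S : range T => S.2.choose, finite_range _, fun t => ?_⟩
    let s := (mem_range_self (f := T) t).choose
    have hs : T s = T t := (mem_range_self (f := T) t).choose_spec
    obtain ⟨π, hπ⟩ := perm_of (fun x i => u s i x) (fun x i => u t i x) fun d => Set.ext_iff.1 hs d
    let β : Perm Y := ⟨fun y => y.compTendsto π π.injective.tendsto_cofinite,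
      fun y => y.compTendsto π.symm π.symm.injective.tendsto_cofinite,
      fun y => y.inductionOn fun w => congrArg Germ.ofFun (funext fun x => by simp),
      fun y => y.inductionOn fun w => congrArg Germ.ofFun (funext fun x => by simp)⟩
    refine ⟨β, ⟨π, fun _ => rfl⟩, ⟨T t, t, rfl⟩, funext fun i => ?_⟩
    show s i = β (t i)
    rw [hu s, hu t]
    exact Germ.coe_eq.2 (hπ.mono fun x hx => (congrFun hx i).symm)
  let f : X → Ω → D := fun x ω => (fun i => ω.1 i = x, χ ω.1)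
  obtain ⟨α, h1, h2⟩ := canon hG hH (fun x => (f x : Y)) hn a hF hFG
  refine ⟨α, h1, fun γ hγ => ?_⟩
  obtain ⟨β, ⟨π, h3⟩, h4⟩ := h2 γ hγ
  have h5 : ∀ᶠ ω in cofinite, ∀ i, f (α (γ (a i))) ω = f (α (a i)) (π ω) :=
    eventually_all.2 fun i => Germ.coe_eq.1 ((congrFun h4 i).trans (h3 _))
  have h6 : ∃ᶠ ω : Ω in cofinite, ω.1 = α ∘ γ ∘ a := frequently_cofinite_iff_infinite.2
    (infinite_of_injective_forall_mem (f := fun j : ℕ => ((α ∘ γ ∘ a, j) : Ω))
      (fun _ _ h => (Prod.ext_iff.1 h).2) fun _ => rfl)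
  obtain ⟨ω, k1, k2⟩ := (h6.and_eventually h5).exists
  have k3 : (π ω).1 = α ∘ a := funext fun i =>
    (congrFun (congrArg Prod.fst (k2 i)) i).mp (congrFun k1 i)
  rw [← k1, ← k3]
  exact congrArg Prod.snd (k2 ⟨0, hn⟩)

theorem result (X : Type) [Countable X] (G : Subgroup (Perm X)) (hG : Canonisation G) :
    ExtremelyAmenable.{v} G := by
  intro Z _ _ _ _ _ _
  by_contra hn
  push Not at hn
  choose g hg using hn
  have h1 : ∀ z : Z, ∃ W ∈ 𝓝 z, ∃ V ∈ 𝓝 (1 : G), ∀ v ∈ V, ∀ v' ∈ V, ∀ x ∈ W, ∀ y ∈ W,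
      g z • v • x ≠ v' • y := by
    intro z
    obtain ⟨A, B, a1, b1, a2, b2, h⟩ := t2_separation (hg z)
    have c : Tendsto (fun p : G × Z => p.1 • p.2) (𝓝 (1, z)) (𝓝 z) := by
      simpa using (continuous_smul (M := G) (X := Z)).tendsto (1, z)
    obtain ⟨V, hV, W, hW, h2⟩ := mem_nhds_prod_iff.1 (c (inter_mem
      ((continuous_const_smul (g z)).continuousAt.preimage_mem_nhds (a1.mem_nhds a2))
      (b1.mem_nhds b2)))
    exact ⟨W, hW, V, hV, fun v hv v' hv' x hx y hy e => disjoint_left.1 h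
      (h2 (mk_mem_prod hv hx)).1 (mem_of_eq_of_mem e (h2 (mk_mem_prod hv' hy)).2)⟩
  choose W hW V hV h2 using h1
  obtain ⟨t, ht⟩ := CompactSpace.elim_nhds_subcover W hW
  obtain ⟨n, a, ha⟩ : ∃ (n : ℕ) (a : Fin n → X), ∀ v : G, v.1 ∘ a = a → ∀ z ∈ t, v ∈ V z := by
    let _ : TopologicalSpace X := ⊥
    have : DiscreteTopology X := ⟨rfl⟩
    have h3 := (biInter_finset_mem t).2 fun z _ => hV z
    rw [nhds_subtype, nhds_induced, comap_comap, nhds_pi] at h3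
    obtain ⟨S, h4, h5⟩ := h3
    obtain ⟨I, h6, s, h7, h8⟩ := mem_pi.1 h4
    obtain ⟨n, a, -, h9⟩ := h6.fin_param
    refine ⟨n, a, fun v hv => mem_iInter₂.1 (h5 (h8 fun x hx => ?_))⟩
    obtain ⟨i, rfl⟩ := h9.symm.subset hx
    exact mem_of_eq_of_mem (congrFun hv i) (mem_of_mem_nhds (h7 _))
  let z0 := Classical.arbitrary Z
  have h3 : ∀ b : Fin n → X, ∃ z : t, ∀ h : G, h.1 ∘ a = b →
      ∃ v ∈ V z.1, ∃ x ∈ W z.1, h⁻¹ • z0 = v • x := by
    intro b
    by_cases hb : ∃ h : G, h.1 ∘ a = b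
    · obtain ⟨h0, rfl⟩ := hb
      obtain ⟨z, h4, h5⟩ := mem_iUnion₂.1 (ht.superset (mem_univ (h0⁻¹ • z0)))
      refine ⟨⟨z, h4⟩, fun h e => ⟨h⁻¹ * h0, ha _ (funext fun i => h.1.injective ?_) z h4, _, h5, ?_⟩⟩
      · simpa using (congrFun e i).symm
      · rw [mul_smul, smul_inv_smul]
    · obtain ⟨z, h4, -⟩ := mem_iUnion₂.1 (ht.superset (mem_univ z0))
      exact ⟨⟨z, h4⟩, fun h e => absurd ⟨h, e⟩ hb⟩
  choose χ hχ using h3
  obtain ⟨α, h4, h5⟩ := ramsey hG a (t.equivFin ∘ χ) (finite_range fun z : t => ((g z.1)⁻¹).1) (by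
    rintro _ ⟨z, rfl⟩
    exact ((g z.1)⁻¹).2)
  obtain ⟨v, k1, x, k2, k3⟩ := hχ _ ⟨α, h4⟩ rfl
  obtain ⟨v', k4, y, k5, k6⟩ := hχ _ (⟨α, h4⟩ * (g (χ (α ∘ a)).1)⁻¹) rfl
  have e := t.equivFin.injective (h5 _ ⟨χ (α ∘ a), rfl⟩)
  refine h2 _ v k1 v' (e ▸ k4) x k2 y (e ▸ k5) ?_
  rw [← k3, ← k6, mul_inv_rev, inv_inv, mul_smul]

end Pool.Agent.Results.MP_6d0d7d_lc.Converse
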